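import Mathlib
import Pool.Agent.Helper82_Vir.TwoCrit

set_option autoImplicit false

namespace Pool.Agent.Helper7_PQP.Former.SteepTwoCritical

open Pool.Agent.Helper42_Paneitz Pool.Agent.Helper82_Vir
open scoped Manifold ContDiff

/-- **Steep functions with two critical points are never Paneitz curvatures.**
Let `ψ` be a smooth function on `S^4` with no critical points besides `N` and `S`, both of them
nondegenerate. Then there is `L` such that for every smooth `φ : ℝ → ℝ` with `φ' ≥ L` the
positive function `exp (-φ(ψ))` is not the Paneitz curvature of any metric pointwise conformal to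
the round metric. -/
theorem result (ψ : S4 → ℝ) (hψ : ContMDiff (𝓡 4) 𝓘(ℝ, ℝ) ∞ ψ) (N S : S4)
    (hcrit : ∀ x : S4, (∀ v : E5, dd ψ x v = 0) → x = N ∨ x = S)
    (hN : NondegCrit ψ N) (hS : NondegCrit ψ S) :
    ∃ L : ℝ, ∀ φ : ℝ → ℝ, ContDiff ℝ ∞ φ → (∀ t : ℝ, L ≤ deriv φ t) →
      ¬ IsPaneitzCurvature (fun x => Real.exp (-φ (ψ x))) :=
  two_crit (sm_of_contMDiff hψ) hcrit hN hS

end Pool.Agent.Helper7_PQP.Former.SteepTwoCritical
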